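import Pool.Agent.Q120.LD.Stm
import Pool.Agent.H353R2.Z2

set_option autoImplicit false

namespace Pool.Agent.Q210.LD

open Finset Pool.Agent.Q120.LD

theorem gcd_row {Q q : ℕ} (hQ : 1 ≤ Q) (hq : q ≠ 0) (J : Finset ℕ) (hJ : J ⊆ Ico Q (2 * Q)) :
    ∑ q' ∈ J, Nat.gcd q q' ≤ q.divisors.card * (2 * Q) := by
  have h1 : ∀ q' ∈ J, Nat.gcd q q' ≤ ∑ d ∈ q.divisors, if d ∣ q' then d else 0 := by
    intro q' _
    have hmem : Nat.gcd q q' ∈ q.divisors := Nat.mem_divisors.2 ⟨Nat.gcd_dvd_left _ _, hq⟩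
    calc Nat.gcd q q' = if Nat.gcd q q' ∣ q' then Nat.gcd q q' else 0 := by
          rw [if_pos (Nat.gcd_dvd_right _ _)]
      _ ≤ _ := single_le_sum (f := fun d => if d ∣ q' then d else 0) (fun _ _ => Nat.zero_le _) hmem
  refine (sum_le_sum h1).trans ?_
  rw [sum_comm]
  calc ∑ d ∈ q.divisors, ∑ q' ∈ J, (if d ∣ q' then d else 0) ≤ ∑ d ∈ q.divisors, 2 * Q := by
        refine sum_le_sum fun d _ => ?_
        rw [← sum_filter, sum_const, smul_eq_mul]
        have h2 : (J.filter (fun q' => d ∣ q')).card ≤ 2 * Q / d := by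
          rw [← Nat.Ioc_filter_dvd_card_eq_div]
          refine card_le_card fun x hx => ?_
          rw [mem_filter] at hx ⊢
          have := mem_Ico.1 (hJ hx.1)
          exact ⟨mem_Ioc.2 ⟨by omega, by omega⟩, hx.2⟩
        exact (Nat.mul_le_mul_right d h2).trans (Nat.div_mul_le_self _ _)
    _ = _ := by rw [sum_const, smul_eq_mul]

theorem t_GCDS : J_GCDS := by
  intro ε hε
  obtain ⟨C, hC, hdiv⟩ := H353.divisor_bound_real ε hε
  refine ⟨2 * C * 2 ^ ε, by positivity, fun Q J hQ hJ => ?_⟩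
  have hQ0 : (0 : ℝ) < Q := by exact_mod_cast hQ
  have h1 : ∀ q ∈ J, ∑ q' ∈ J, (Nat.gcd q q' : ℝ) ≤ 2 * C * 2 ^ ε * (Q : ℝ) ^ (1 + ε) := by
    intro q hq
    have hqm := mem_Ico.1 (hJ hq)
    have hq0 : q ≠ 0 := by omega
    have h2 : ∑ q' ∈ J, (Nat.gcd q q' : ℝ) ≤ (q.divisors.card : ℝ) * (2 * Q) := by
      exact_mod_cast gcd_row hQ hq0 J hJ
    have h3 := hdiv q hq0
    have h4 : (q : ℝ) ^ ε ≤ (2 * (Q : ℝ)) ^ ε := by
      apply Real.rpow_le_rpow (by positivity) _ hε.le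
      have : q ≤ 2 * Q := by omega
      exact_mod_cast this
    rw [Real.mul_rpow (by norm_num) hQ0.le] at h4
    calc _ ≤ (q.divisors.card : ℝ) * (2 * Q) := h2
      _ ≤ (C * (2 ^ ε * (Q : ℝ) ^ ε)) * (2 * Q) := by
          refine mul_le_mul_of_nonneg_right (h3.trans (mul_le_mul_of_nonneg_left h4 hC.le)) (by positivity)
      _ = _ := by
          rw [Real.rpow_add hQ0, Real.rpow_one]
          ring
  refine (sum_le_sum h1).trans (le_of_eq ?_)
  rw [sum_const, nsmul_eq_mul]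
  ring

end Pool.Agent.Q210.LD
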