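import Pool.Agent.Q120.LD.Stm

set_option autoImplicit false

namespace Pool.Agent.Q210.LD

open Finset MeasureTheory Filter Pool.Agent.Q120.ET Pool.Agent.Q120.GM Pool.Agent.Q120.GE Pool.Agent.Q120.LD
open ProbabilityTheory
open scoped Topology NNReal

open Classical in
theorem t_HOE : J_HOE := by
  intro Ω _ μ _ p A hA I c V s hV hV0 hs
  set G : ℕ → Set Ω := fun n => {ω | n ∈ A ω} with hG
  have hGm : ∀ n, MeasurableSet (G n) := hA.meas
  set X : ℕ → Ω → ℝ := fun n => (G n).indicator (fun _ => (1 : ℝ)) with hX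
  have hXm : ∀ n, Measurable (X n) := fun n => measurable_const.indicator (hGm n)
  have hXi : iIndepFun X μ := hA.indep.iIndepFun_indicator (β := ℝ)
  set Y : ℕ → Ω → ℝ := fun n ω => c n * (X n ω - p n) with hY
  have hYi : iIndepFun Y μ :=
    hXi.comp (fun n x => c n * (x - p n)) (fun n => by fun_prop)
  have hint : ∀ n, ∫ ω, (X n ω - p n) ∂μ = 0 := by
    intro n
    rw [integral_sub ((integrable_const (1 : ℝ)).indicator (hGm n)) (integrable_const _),
      integral_indicator_const _ (hGm n), hA.prob n]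
    simp
  have hsub0 : ∀ n, HasSubgaussianMGF (fun ω => X n ω - p n) ((‖(1 - p n) - (0 - p n)‖₊ / 2) ^ 2) μ := by
    intro n
    refine hasSubgaussianMGF_of_mem_Icc_of_integral_eq_zero ((hXm n).sub_const _).aemeasurable
      (Eventually.of_forall fun ω => ?_) (hint n)
    by_cases h : ω ∈ G n
    · rw [hX]
      simp only [Set.indicator_of_mem h, Set.mem_Icc]
      constructor <;> linarith
    · rw [hX]
      simp only [Set.indicator_of_notMem h, Set.mem_Icc]
      constructor <;> linarith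
  have hsub : ∀ n, HasSubgaussianMGF (Y n) (.mk (c n ^ 2) (sq_nonneg _) * (‖(1 - p n) - (0 - p n)‖₊ / 2) ^ 2) μ :=
    fun n => (hsub0 n).const_mul (c n)
  have hval : ∀ n, (((.mk (c n ^ 2) (sq_nonneg _) * (‖(1 - p n) - (0 - p n)‖₊ / 2) ^ 2 : ℝ≥0)) : ℝ) = c n ^ 2 / 4 := by
    intro n
    push_cast
    have : ‖(1 - p n) - (0 - p n)‖ = 1 := by
      have h : (1 - p n) - (0 - p n) = 1 := by ring
      rw [h]; simp
    rw [this]
    ring
  have hset : {ω | s ≤ ∑ n ∈ I, c n * ((if n ∈ A ω then 1 else 0) - p n)} = {ω | s ≤ ∑ n ∈ I, Y n ω} := by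
    ext ω
    simp only [Set.mem_ofPred_eq]
    have : ∑ n ∈ I, c n * ((if n ∈ A ω then (1 : ℝ) else 0) - p n) = ∑ n ∈ I, Y n ω := by
      refine sum_congr rfl fun n _ => ?_
      rw [hY, hX]
      simp only [Set.indicator_apply, hG, Set.mem_ofPred_eq]
    rw [this]
  rw [hset]
  by_cases h0 : ∑ n ∈ I, c n ^ 2 = 0
  · have hc0 : ∀ n ∈ I, c n = 0 := fun n hn => by
      have := (sum_eq_zero_iff_of_nonneg (fun i _ => sq_nonneg (c i))).1 h0 n hn
      exact pow_eq_zero_iff (by norm_num) |>.1 this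
    have : {ω | s ≤ ∑ n ∈ I, Y n ω} = ∅ := by
      ext ω
      simp only [Set.mem_ofPred_eq, Set.mem_empty_iff_false, iff_false, not_le]
      rw [sum_eq_zero (fun n hn => by rw [hY]; simp only [hc0 n hn, zero_mul])]
      exact hs
    rw [this]
    simp only [measureReal_empty]
    exact (Real.exp_pos _).le
  · have hpos : 0 < ∑ n ∈ I, c n ^ 2 := lt_of_le_of_ne (sum_nonneg fun _ _ => sq_nonneg _) (Ne.symm h0)
    refine (HasSubgaussianMGF.measure_sum_ge_le_of_iIndepFun hYi (fun n _ => hsub n) hs.le).trans ?_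
    apply Real.exp_le_exp.2
    rw [NNReal.coe_sum, sum_congr rfl fun n _ => hval n, ← sum_div, neg_div, neg_le_neg_iff]
    apply div_le_div_of_nonneg_left (by positivity) (by positivity)
    linarith

end Pool.Agent.Q210.LD
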