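import Pool.Agent.Q120.LD.Stm

set_option autoImplicit false

namespace Pool.Agent.Q210.LD

open Finset Pool.Agent.Q120.LD

theorem class_card {L x : ℕ} (hL : 1 ≤ L) (S : Finset ℕ) (hS : S ⊆ Icc 1 x)
    (h : ∀ m ∈ S, ∀ n ∈ S, m % L = n % L) : S.card ≤ x / L + 1 := by
  have h1 : S.card ≤ (range (x / L + 1)).card := by
    refine card_le_card_of_injOn (fun n => n / L) ?_ ?_
    · intro n hn
      have := mem_Icc.1 (hS hn)
      rw [mem_coe, mem_range]
      exact Nat.lt_succ_of_le (Nat.div_le_div_right this.2)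
    · intro m hm n hn e
      have e' : m / L = n / L := e
      rw [← Nat.div_add_mod m L, ← Nat.div_add_mod n L, e', h m hm n hn]
  simpa using h1

theorem pair_card {q q' x : ℕ} (hq : 1 ≤ q) (hq' : 1 ≤ q') (a b : ℕ) :
    ((Icc 3 x).filter (fun n => n % q = a % q ∧ n % q' = b % q')).card ≤ x / (Nat.lcm q q') + 1 := by
  refine class_card (Nat.lcm_pos hq hq') _ ?_ ?_
  · intro n hn
    have := mem_Icc.1 (mem_filter.1 hn).1
    rw [mem_Icc]; omega
  · intro m hm n hn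
    have h1 := (mem_filter.1 hm).2
    have h2 := (mem_filter.1 hn).2
    have e1 : m ≡ n [MOD q] := h1.1.trans h2.1.symm
    have e2 : m ≡ n [MOD q'] := h1.2.trans h2.2.symm
    have e3 : m ≡ n [MOD Nat.lcm q q'] := Nat.mod_lcm e1 e2
    exact e3

open Classical in
theorem t_SEC : J_SEC := by
  intro hG ε hε
  obtain ⟨C, hC, hg⟩ := hG ε hε
  refine ⟨C, hC, fun Q x J a s hQ hJ hs => ?_⟩
  have hQ0 : (0 : ℝ) < Q := by exact_mod_cast hQ
  have hpos : ∀ q ∈ J, Q ≤ q ∧ 1 ≤ q := fun q hq => by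
    have := mem_Ico.1 (hJ hq); omega
  have h1 : ∀ n ∈ Icc 3 x, (∑ q ∈ J.filter (fun q => n % q = a q % q), s q) ^ 2 ≤
      ∑ q ∈ J, ∑ q' ∈ J, (if n % q = a q % q ∧ n % q' = a q' % q' then (1 : ℝ) else 0) := by
    intro n _
    rw [sum_filter, pow_two, sum_mul_sum]
    refine sum_le_sum fun q _ => sum_le_sum fun q' _ => ?_
    by_cases e1 : n % q = a q % q
    · by_cases e2 : n % q' = a q' % q'
      · rw [if_pos e1, if_pos e2, if_pos ⟨e1, e2⟩]
        calc s q * s q' ≤ |s q * s q'| := le_abs_self _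
          _ = |s q| * |s q'| := abs_mul _ _
          _ ≤ 1 * 1 := mul_le_mul (hs q) (hs q') (abs_nonneg _) zero_le_one
          _ = 1 := one_mul 1
      · rw [if_neg e2, mul_zero]
        split_ifs <;> norm_num
    · rw [if_neg e1, zero_mul]
      split_ifs <;> norm_num
  have h2 : ∀ q ∈ J, ∀ q' ∈ J, ∑ n ∈ Icc 3 x, (if n % q = a q % q ∧ n % q' = a q' % q' then (1 : ℝ) else 0) ≤
      1 + x / (Q : ℝ) ^ 2 * (Nat.gcd q q' : ℝ) := by
    intro q hq q' hq'
    obtain ⟨a1, a2⟩ := hpos q hq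
    obtain ⟨b1, b2⟩ := hpos q' hq'
    have e1 : ∑ n ∈ Icc 3 x, (if n % q = a q % q ∧ n % q' = a q' % q' then (1 : ℝ) else 0) =
        (((Icc 3 x).filter (fun n => n % q = a q % q ∧ n % q' = a q' % q')).card : ℝ) := by
      rw [card_filter]; push_cast; rfl
    rw [e1]
    have e2 : (((Icc 3 x).filter (fun n => n % q = a q % q ∧ n % q' = a q' % q')).card : ℝ) ≤
        ((x / (Nat.lcm q q') : ℕ) : ℝ) + 1 := by exact_mod_cast pair_card a2 b2 (a q) (a q')
    have e3 : ((x / (Nat.lcm q q') : ℕ) : ℝ) ≤ x / (Q : ℝ) ^ 2 * (Nat.gcd q q' : ℝ) := by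
      refine Nat.cast_div_le.trans ?_
      have hl : (Nat.gcd q q' : ℝ) * (Nat.lcm q q' : ℝ) = q * q' := by exact_mod_cast Nat.gcd_mul_lcm q q'
      have hl0 : (0 : ℝ) < (Nat.lcm q q' : ℝ) := by exact_mod_cast Nat.lcm_pos a2 b2
      have hqq : (Q : ℝ) ^ 2 ≤ q * q' := by
        rw [pow_two]
        exact mul_le_mul (by exact_mod_cast a1) (by exact_mod_cast b1) hQ0.le (by positivity)
      rw [div_le_iff₀ hl0, mul_assoc, hl, div_mul_eq_mul_div, le_div_iff₀ (by positivity)]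
      exact mul_le_mul_of_nonneg_left hqq (by positivity)
    linarith
  calc ∑ n ∈ Icc 3 x, (∑ q ∈ J.filter (fun q => n % q = a q % q), s q) ^ 2
      ≤ ∑ n ∈ Icc 3 x, ∑ q ∈ J, ∑ q' ∈ J, (if n % q = a q % q ∧ n % q' = a q' % q' then (1 : ℝ) else 0) :=
        sum_le_sum h1
    _ = ∑ q ∈ J, ∑ q' ∈ J, ∑ n ∈ Icc 3 x, (if n % q = a q % q ∧ n % q' = a q' % q' then (1 : ℝ) else 0) := by
        rw [sum_comm]
        exact sum_congr rfl fun q _ => sum_comm
    _ ≤ ∑ q ∈ J, ∑ q' ∈ J, (1 + x / (Q : ℝ) ^ 2 * (Nat.gcd q q' : ℝ)) :=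
        sum_le_sum fun q hq => sum_le_sum fun q' hq' => h2 q hq q' hq'
    _ = (J.card : ℝ) ^ 2 + x / (Q : ℝ) ^ 2 * ∑ q ∈ J, ∑ q' ∈ J, (Nat.gcd q q' : ℝ) := by
        simp only [sum_add_distrib, sum_const, nsmul_eq_mul, mul_one, mul_sum]
        ring
    _ ≤ (J.card : ℝ) ^ 2 + x / (Q : ℝ) ^ 2 * (C * J.card * (Q : ℝ) ^ (1 + ε)) := by
        have := hg Q J hQ hJ
        have h0 : (0 : ℝ) ≤ x / (Q : ℝ) ^ 2 := by positivity
        linarith [mul_le_mul_of_nonneg_left this h0]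
    _ = (J.card : ℝ) ^ 2 + C * x * J.card * (Q : ℝ) ^ ε / Q := by
        rw [Real.rpow_add hQ0, Real.rpow_one]
        field_simp

end Pool.Agent.Q210.LD
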