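import Pool.Agent.Q120.LD.Stm

set_option autoImplicit false

namespace Pool.Agent.Q210.LD

open Finset Pool.Agent.Q120.LD

theorem top_aux (f : ℕ → ℝ) (M : ℕ) : ∀ (m : ℕ) (I : Finset ℕ), (∀ i ∈ I, 0 ≤ f i) → I.card = M + m →
    ∃ J ⊆ I, J.card = M ∧ (M : ℝ) * ∑ i ∈ I, f i ≤ I.card * ∑ i ∈ J, f i := by
  intro m
  induction m with
  | zero =>
    intro I hI hc
    exact ⟨I, subset_rfl, by omega, by rw [hc]; simp⟩
  | succ m ih =>
    intro I hI hc
    have hne : I.Nonempty := by
      rw [← card_pos]; omega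
    obtain ⟨a, ha, hmin⟩ := exists_min_image I f hne
    have hc' : (I.erase a).card = M + m := by
      rw [card_erase_of_mem ha, hc]; omega
    obtain ⟨J, hJ, hJc, hle⟩ := ih (I.erase a) (fun i hi => hI i (mem_of_mem_erase hi)) hc'
    refine ⟨J, hJ.trans (erase_subset _ _), hJc, ?_⟩
    have h1 : ∑ i ∈ I, f i = f a + ∑ i ∈ I.erase a, f i := (add_sum_erase I f ha).symm
    have h2 : (M : ℝ) * f a ≤ ∑ i ∈ J, f i := by
      rw [← hJc, ← nsmul_eq_mul, ← sum_const]
      exact sum_le_sum fun i hi => hmin i (mem_of_mem_erase (hJ hi))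
    have h3 : (I.card : ℝ) = (I.erase a).card + 1 := by
      rw [hc, hc']; push_cast; ring
    rw [h1, h3, mul_add, add_mul, one_mul]
    linarith

theorem t_TOP : J_TOP := by
  intro I f M h hM
  exact top_aux f M (I.card - M) I h (by omega)

end Pool.Agent.Q210.LD
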